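import Pool.Agent.Helper68.FTUpper

/-!
# Upper bound for the number of edges of fault tolerant graphs, diameter six

`k` hubs and blocks of `k (k + 1)` vertices: a `k × k` grid whose columns are cliques, and a
collector for every row.
-/

namespace Pool.Agent.FT6

open Pool.Agent.Helper68

/-- hubs; cells `(β, (a, c))`; collectors `(β, a)`; leftover vertices -/
abbrev BV6 (k q r : ℕ) := Fin k ⊕ ((Fin q × (Fin k × Fin k)) ⊕ ((Fin q × Fin k) ⊕ Fin r))

section defs

variable {k q r : ℕ}

/-- hub -/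
abbrev hb (k q r : ℕ) (i : Fin k) : BV6 k q r := .inl i
/-- cell -/
abbrev cl (k q r : ℕ) (β : Fin q) (a c : Fin k) : BV6 k q r := .inr (.inl (β, (a, c)))
/-- collector -/
abbrev co (k q r : ℕ) (β : Fin q) (a : Fin k) : BV6 k q r := .inr (.inr (.inl (β, a)))
/-- leftover -/
abbrev lo (k q r : ℕ) (e : Fin r) : BV6 k q r := .inr (.inr (.inr e))

/-- adjacency -/
def cAdj (k q r : ℕ) : BV6 k q r → BV6 k q r → Prop
  | .inl i, .inl j => i ≠ j
  | .inl i, .inr (.inl x) => x.2.1 = i ∧ x.2.2 = i
  | .inr (.inl x), .inl i => x.2.1 = i ∧ x.2.2 = i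
  | .inl i, .inr (.inr (.inl z)) => z.2 = i
  | .inr (.inr (.inl z)), .inl i => z.2 = i
  | .inl _, .inr (.inr (.inr _)) => True
  | .inr (.inr (.inr _)), .inl _ => True
  | .inr (.inl x), .inr (.inl y) => x.1 = y.1 ∧ x.2.2 = y.2.2 ∧ x.2.1 ≠ y.2.1
  | .inr (.inl x), .inr (.inr (.inl z)) => x.1 = z.1 ∧ x.2.1 = z.2 ∧ x.2.2 ≠ x.2.1
  | .inr (.inr (.inl z)), .inr (.inl x) => x.1 = z.1 ∧ x.2.1 = z.2 ∧ x.2.2 ≠ x.2.1
  | _, _ => False

/-- the block graph -/
def cGraph (k q r : ℕ) : SimpleGraph (BV6 k q r) where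
  Adj := cAdj k q r
  symm := ⟨by
    intro u v h
    rcases u with i | x | z | e <;> rcases v with j | y | w | f <;> simp only [cAdj] at h ⊢
    · exact fun h' => h h'.symm
    · exact h
    · exact h
    · exact h
    · exact ⟨h.1.symm, h.2.1.symm, fun h' => h.2.2 h'.symm⟩
    · exact h
    · exact h
    · exact h⟩
  loopless := ⟨by
    intro u h
    rcases u with i | x | z | e <;> simp [cAdj] at h⟩

end defs

section conn

variable {k q r : ℕ}

theorem Conn.symm' {V : Type} {G : SimpleGraph V} {S : Finset V} {m : ℕ} {u v : V}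
    (h : Conn G S m u v) : Conn G S m v u := by
  obtain ⟨ℓ, hℓ, p, h0, h1, h2, h3⟩ := h
  refine ⟨ℓ, hℓ, fun i => p (ℓ - i), by simpa using h1, by simpa using h0, ?_, ?_⟩
  · intro i hi
    have := h2 (ℓ - (i + 1)) (by omega)
    have h4 : ℓ - (i + 1) + 1 = ℓ - i := by omega
    rw [h4] at this
    exact this.symm
  · intro i hi
    exact h3 _ (by omega)

theorem Conn.trans' {V : Type} {G : SimpleGraph V} {S : Finset V} {m m' : ℕ} {u v w : V}
    (h : Conn G S m u v) (h' : Conn G S m' v w) : Conn G S (m + m') u w := by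
  obtain ⟨ℓ, hℓ, p, h0, h1, h2, h3⟩ := h
  obtain ⟨ℓ', hℓ', p', h0', h1', h2', h3'⟩ := h'
  refine ⟨ℓ + ℓ', by omega, fun i => if i ≤ ℓ then p i else p' (i - ℓ), ?_, ?_, ?_, ?_⟩
  · simp [h0]
  · by_cases hz : ℓ' = 0
    · subst hz
      have h4 : v = w := h0'.symm.trans h1'
      simp [h1, h4]
    · have : ¬ ℓ + ℓ' ≤ ℓ := by omega
      simp [hz, h1']
  · intro i hi
    by_cases h4 : i + 1 ≤ ℓ
    · have h5 : i ≤ ℓ := by omega
      simp only [h4, h5, if_true]
      exact h2 i (by omega)
    · by_cases h5 : i ≤ ℓ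
      · have h6 : i = ℓ := by omega
        subst h6
        have h7 : i + 1 - i = 0 + 1 := by omega
        simp only [h5, h4, if_true, if_false, h1, h7]
        rw [← h0']
        exact h2' 0 (by omega)
      · have h7 : i + 1 - ℓ = (i - ℓ) + 1 := by omega
        simp only [h5, h4, if_false, h7]
        exact h2' _ (by omega)
  · intro i hi
    by_cases h5 : i ≤ ℓ
    · simp only [h5, if_true]
      exact h3 i h5
    · simp only [h5, if_false]
      exact h3' _ (by omega)

variable {S : Finset (BV6 k q r)}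

/-- the inner vertices of the path from the cell `(β, (a, c))` to the hub `l` -/
theorem conn_cell {β : Fin q} {a c l : Fin k} (hu : cl k q r β a c ∉ S)
    (h0 : hb k q r l ∉ S) (h1 : cl k q r β l c ∉ S) (h2 : l ≠ c → co k q r β l ∉ S) :
    Conn (cGraph k q r) S 3 (cl k q r β a c) (hb k q r l) := by
  have hstep : cl k q r β a c = cl k q r β l c ∨
      (cGraph k q r).Adj (cl k q r β a c) (cl k q r β l c) := by
    by_cases h : a = l
    · left; rw [h]
    · right; exact ⟨rfl, rfl, h⟩
  by_cases hlc : l = c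
  · subst hlc
    have hs : (cGraph k q r).Adj (cl k q r β l l) (hb k q r l) := ⟨rfl, rfl⟩
    exact (((Conn.refl h0).cons h1 (Or.inr hs)).cons hu hstep).mono (by omega)
  · have hs1 : (cGraph k q r).Adj (co k q r β l) (hb k q r l) := (rfl : l = l)
    have hs2 : (cGraph k q r).Adj (cl k q r β l c) (co k q r β l) :=
      ⟨rfl, rfl, fun h => hlc h.symm⟩
    exact (((Conn.refl h0).cons (h2 hlc) (Or.inr hs1)).cons h1 (Or.inr hs2)).cons hu hstep

/-- the inner vertices of the path from the collector `(β, a)` to the hub `l` -/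
theorem conn_coll {β : Fin q} {a l : Fin k} (hu : co k q r β a ∉ S)
    (h0 : hb k q r l ∉ S) (h1 : l ≠ a → cl k q r β a l ∉ S) (h2 : l ≠ a → cl k q r β l l ∉ S) :
    Conn (cGraph k q r) S 3 (co k q r β a) (hb k q r l) := by
  by_cases hla : l = a
  · subst hla
    have hs1 : (cGraph k q r).Adj (co k q r β l) (hb k q r l) := (rfl : l = l)
    exact ((Conn.refl h0).cons hu (Or.inr hs1)).mono (by omega)
  · have hs1 : (cGraph k q r).Adj (cl k q r β l l) (hb k q r l) := ⟨rfl, rfl⟩
    have hs2 : (cGraph k q r).Adj (cl k q r β a l) (cl k q r β l l) :=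
      ⟨rfl, rfl, fun h => hla h.symm⟩
    have hs3 : (cGraph k q r).Adj (co k q r β a) (cl k q r β a l) :=
      ⟨rfl, rfl, hla⟩
    exact (((Conn.refl h0).cons (h2 hla) (Or.inr hs1)).cons (h1 hla) (Or.inr hs2)).cons hu
      (Or.inr hs3)

theorem conn_hubs {i j : Fin k} (hi : hb k q r i ∉ S) (hj : hb k q r j ∉ S) :
    Conn (cGraph k q r) S 1 (hb k q r i) (hb k q r j) := by
  refine (Conn.refl hj).cons hi ?_
  by_cases h : i = j
  · left; rw [h]
  · right; exact h

/-- pigeonhole: if the members of `P l` have label `l`, some `P l` avoids `S` -/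
theorem exists_label (hk : 1 ≤ k) (hS : S.card = k - 1) (lam : BV6 k q r → Fin k)
    (P : Fin k → Finset (BV6 k q r)) (hP : ∀ l, ∀ x ∈ P l, lam x = l) :
    ∃ l, ∀ x ∈ P l, x ∉ S := by
  by_contra hcon
  push Not at hcon
  choose f hf1 hf2 using hcon
  have h2 := Finset.card_le_card_of_injOn f (s := Finset.univ) (t := S)
    (fun i _ => hf2 i) (fun i _ j _ h => by
      rw [← hP i _ (hf1 i), h, hP j _ (hf1 j)])
  rw [Finset.card_univ, Fintype.card_fin] at h2
  omega

/-- two cells have a common live label -/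
theorem cell_cell (hk : 1 ≤ k) (hS : S.card = k - 1) {β β' : Fin q} {a c a' c' : Fin k}
    (hu : cl k q r β a c ∉ S) (hv : cl k q r β' a' c' ∉ S) :
    ∃ l, hb k q r l ∉ S ∧ Conn (cGraph k q r) S 3 (cl k q r β a c) (hb k q r l) ∧
      Conn (cGraph k q r) S 3 (cl k q r β' a' c') (hb k q r l) := by
  classical
  obtain ⟨l, hl⟩ := exists_label hk hS
    (fun x => match x with
      | .inl i => i
      | .inr (.inl x) => x.2.1
      | .inr (.inr (.inl z)) => z.2
      | .inr (.inr (.inr _)) => ⟨0, by omega⟩)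
    (fun l => {hb k q r l, cl k q r β l c, co k q r β l, cl k q r β' l c', co k q r β' l})
    (by
      intro l x hx
      simp only [Finset.mem_insert, Finset.mem_singleton] at hx
      rcases hx with rfl | rfl | rfl | rfl | rfl <;> rfl)
  simp only [Finset.mem_insert, Finset.mem_singleton, forall_eq_or_imp, forall_eq] at hl
  obtain ⟨h0, h1, h2, h3, h4⟩ := hl
  exact ⟨l, h0, conn_cell hu h0 h1 (fun _ => h2), conn_cell hv h0 h3 (fun _ => h4)⟩

/-- two collectors have a common live label -/
theorem coll_coll (hk : 1 ≤ k) (hS : S.card = k - 1) {β β' : Fin q} {a a' : Fin k}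
    (hu : co k q r β a ∉ S) (hv : co k q r β' a' ∉ S) :
    ∃ l, hb k q r l ∉ S ∧ Conn (cGraph k q r) S 3 (co k q r β a) (hb k q r l) ∧
      Conn (cGraph k q r) S 3 (co k q r β' a') (hb k q r l) := by
  classical
  obtain ⟨l, hl⟩ := exists_label hk hS
    (fun x => match x with
      | .inl i => i
      | .inr (.inl x) => x.2.2
      | .inr (.inr (.inl z)) => z.2
      | .inr (.inr (.inr _)) => ⟨0, by omega⟩)
    (fun l => {hb k q r l, cl k q r β a l, cl k q r β l l, cl k q r β' a' l, cl k q r β' l l})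
    (by
      intro l x hx
      simp only [Finset.mem_insert, Finset.mem_singleton] at hx
      rcases hx with rfl | rfl | rfl | rfl | rfl <;> rfl)
  simp only [Finset.mem_insert, Finset.mem_singleton, forall_eq_or_imp, forall_eq] at hl
  obtain ⟨h0, h1, h2, h3, h4⟩ := hl
  exact ⟨l, h0, conn_coll hu h0 (fun _ => h1) (fun _ => h2),
    conn_coll hv h0 (fun _ => h3) (fun _ => h4)⟩

/-- a cell and a collector whose hub is deleted have a common live label -/
theorem cell_coll (hk : 1 ≤ k) (hS : S.card = k - 1) {β β' : Fin q} {a c b : Fin k}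
    (hu : cl k q r β a c ∉ S) (hv : co k q r β' b ∉ S) (hb' : hb k q r b ∈ S) :
    ∃ l, hb k q r l ∉ S ∧ Conn (cGraph k q r) S 3 (cl k q r β a c) (hb k q r l) ∧
      Conn (cGraph k q r) S 3 (co k q r β' b) (hb k q r l) := by
  classical
  obtain ⟨l, hl⟩ := exists_label hk hS
    (fun x => match x with
      | .inl i => i
      | .inr (.inl x) => if x.1 = β' ∧ x.2.1 = b then x.2.2 else x.2.1
      | .inr (.inr (.inl z)) => z.2
      | .inr (.inr (.inr _)) => ⟨0, by omega⟩)
    (fun l => if l = b then {hb k q r l} else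
      {hb k q r l, cl k q r β l c, co k q r β l, cl k q r β' b l, cl k q r β' l l})
    (by
      intro l x hx
      split_ifs at hx with hlb
      · simp only [Finset.mem_singleton] at hx
        subst hx
        rfl
      · simp only [Finset.mem_insert, Finset.mem_singleton] at hx
        rcases hx with rfl | rfl | rfl | rfl | rfl
        · rfl
        · simp [hlb]
        · rfl
        · simp
        · simp)
  have hlb : l ≠ b := by
    rintro rfl
    rw [if_pos rfl] at hl
    exact hl _ (Finset.mem_singleton_self _) hb'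
  rw [if_neg hlb] at hl
  simp only [Finset.mem_insert, Finset.mem_singleton, forall_eq_or_imp, forall_eq] at hl
  obtain ⟨h0, h1, h2, h3, h4⟩ := hl
  exact ⟨l, h0, conn_cell hu h0 h1 (fun _ => h2), conn_coll hv h0 (fun _ => h3) (fun _ => h4)⟩

theorem cGraph_conn (hk : 1 ≤ k) (S : Finset (BV6 k q r)) (hS : S.card = k - 1)
    (u v : BV6 k q r) (hu : u ∉ S) (hv : v ∉ S) : Conn (cGraph k q r) S 6 u v := by
  classical
  obtain ⟨i₀, hi₀⟩ : ∃ i : Fin k, hb k q r i ∉ S := by
    obtain ⟨l, hl⟩ := exists_label hk hS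
      (fun x => match x with
        | .inl i => i
        | _ => ⟨0, by omega⟩) (fun l => {hb k q r l})
      (by intro l x hx; rw [Finset.mem_singleton] at hx; subst hx; rfl)
    exact ⟨l, hl _ (Finset.mem_singleton_self _)⟩
  -- a leftover vertex reaches every live hub in one step
  have hlo : ∀ (e : Fin r) (i : Fin k), lo k q r e ∉ S → hb k q r i ∉ S →
      Conn (cGraph k q r) S 1 (lo k q r e) (hb k q r i) := by
    intro e i h1 h2
    exact (Conn.refl h2).cons h1 (Or.inr trivial)
  rcases u with i | ⟨β, a, c⟩ | ⟨β, a⟩ | e <;> rcases v with j | ⟨β', a', c'⟩ | ⟨β', a'⟩ | f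
  · exact (conn_hubs hu hv).mono (by omega)
  · obtain ⟨l, h0, h1, -⟩ := cell_cell hk hS hv hv
    exact (Conn.trans' (conn_hubs hu h0) (Conn.symm' h1)).mono (by omega)
  · obtain ⟨l, h0, h1, -⟩ := coll_coll hk hS hv hv
    exact (Conn.trans' (conn_hubs hu h0) (Conn.symm' h1)).mono (by omega)
  · exact (Conn.symm' (hlo f i hv hu)).mono (by omega)
  · obtain ⟨l, h0, h1, -⟩ := cell_cell hk hS hu hu
    exact (Conn.trans' h1 (conn_hubs h0 hv)).mono (by omega)
  · obtain ⟨l, h0, h1, h2⟩ := cell_cell hk hS hu hv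
    exact (Conn.trans' h1 (Conn.symm' h2)).mono (by omega)
  · by_cases hb' : hb k q r a' ∈ S
    · obtain ⟨l, h0, h1, h2⟩ := cell_coll hk hS hu hv hb'
      exact (Conn.trans' h1 (Conn.symm' h2)).mono (by omega)
    · obtain ⟨l, h0, h1, -⟩ := cell_cell hk hS hu hu
      have hs : (cGraph k q r).Adj (hb k q r a') (co k q r β' a') := (rfl : a' = a')
      exact (Conn.trans' h1 (Conn.trans' (conn_hubs h0 hb')
        ((Conn.refl hv).cons hb' (Or.inr hs)))).mono (by omega)
  · obtain ⟨l, h0, h1, -⟩ := cell_cell hk hS hu hu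
    exact (Conn.trans' h1 (Conn.symm' (hlo f l hv h0))).mono (by omega)
  · obtain ⟨l, h0, h1, -⟩ := coll_coll hk hS hu hu
    exact (Conn.trans' h1 (conn_hubs h0 hv)).mono (by omega)
  · by_cases hb' : hb k q r a ∈ S
    · obtain ⟨l, h0, h1, h2⟩ := cell_coll hk hS hv hu hb'
      exact (Conn.trans' h2 (Conn.symm' h1)).mono (by omega)
    · obtain ⟨l, h0, h1, -⟩ := cell_cell hk hS hv hv
      have hs : (cGraph k q r).Adj (hb k q r a) (co k q r β a) := (rfl : a = a)
      exact (Conn.symm' (Conn.trans' h1 (Conn.trans' (conn_hubs h0 hb')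
        ((Conn.refl hu).cons hb' (Or.inr hs))))).mono (by omega)
  · obtain ⟨l, h0, h1, h2⟩ := coll_coll hk hS hu hv
    exact (Conn.trans' h1 (Conn.symm' h2)).mono (by omega)
  · obtain ⟨l, h0, h1, -⟩ := coll_coll hk hS hu hu
    exact (Conn.trans' h1 (Conn.symm' (hlo f l hv h0))).mono (by omega)
  · exact (hlo e j hu hv).mono (by omega)
  · obtain ⟨l, h0, h1, -⟩ := cell_cell hk hS hv hv
    exact (Conn.trans' (hlo e l hu h0) (Conn.symm' h1)).mono (by omega)
  · obtain ⟨l, h0, h1, -⟩ := coll_coll hk hS hv hv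
    exact (Conn.trans' (hlo e l hu h0) (Conn.symm' h1)).mono (by omega)
  · exact (Conn.trans' (hlo e i₀ hu hi₀) (Conn.symm' (hlo f i₀ hv hi₀))).mono (by omega)

end conn

section edges

theorem cGraph_edges (k q r : ℕ) : (cGraph k q r).edgeSet.ncard ≤
    k * k + q * k + q * k + q * k * k.choose 2 + q * (k * (k - 1)) + k * r := by
  classical
  have h1 : (cGraph k q r).edgeSet ⊆
      (((((((Finset.univ : Finset (Fin k × Fin k)).image
          (fun x => (s(Sum.inl x.1, Sum.inl x.2) : Sym2 (BV6 k q r)))) ∪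
        ((Finset.univ : Finset (Fin q × Fin k)).image
          (fun x => s(Sum.inl x.2, cl k q r x.1 x.2 x.2)))) ∪
        ((Finset.univ : Finset (Fin q × Fin k)).image
          (fun x => s(Sum.inl x.2, co k q r x.1 x.2)))) ∪
        (((Finset.univ : Finset (Fin q × Fin k)) ×ˢ (⊤ : SimpleGraph (Fin k)).edgeFinset).image
          (fun x => x.2.map (fun i => cl k q r x.1.1 i x.1.2)))) ∪
        (((Finset.univ : Finset (Fin q)) ×ˢ (Finset.univ : Finset (Fin k)).offDiag).image
          (fun x => s(cl k q r x.1 x.2.1 x.2.2, co k q r x.1 x.2.1)))) ∪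
        ((Finset.univ : Finset (Fin k × Fin r)).image
          (fun x => s(Sum.inl x.1, lo k q r x.2))) : Finset (Sym2 (BV6 k q r))) := by
    intro e he
    induction e using Sym2.ind with
    | _ x y =>
      rw [SimpleGraph.mem_edgeSet] at he
      change cAdj k q r x y at he
      rw [Finset.mem_coe]
      rcases x with i | ⟨β, a, c⟩ | ⟨β, a⟩ | e <;> rcases y with j | ⟨β', a', c'⟩ | ⟨β', a'⟩ | f <;>
        simp only [cAdj] at he
      · refine Finset.mem_union_left _ (Finset.mem_union_left _ (Finset.mem_union_left _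
          (Finset.mem_union_left _ (Finset.mem_union_left _ ?_))))
        exact Finset.mem_image.mpr ⟨(i, j), Finset.mem_univ _, rfl⟩
      · refine Finset.mem_union_left _ (Finset.mem_union_left _ (Finset.mem_union_left _
          (Finset.mem_union_left _ (Finset.mem_union_right _ ?_))))
        obtain ⟨h1, h2⟩ := he
        refine Finset.mem_image.mpr ⟨(β', i), Finset.mem_univ _, ?_⟩
        rw [show a' = i from h1, show c' = i from h2]
      · refine Finset.mem_union_left _ (Finset.mem_union_left _ (Finset.mem_union_left _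
          (Finset.mem_union_right _ ?_)))
        subst he
        exact Finset.mem_image.mpr ⟨(β', a'), Finset.mem_univ _, rfl⟩
      · refine Finset.mem_union_right _ ?_
        exact Finset.mem_image.mpr ⟨(i, f), Finset.mem_univ _, rfl⟩
      · refine Finset.mem_union_left _ (Finset.mem_union_left _ (Finset.mem_union_left _
          (Finset.mem_union_left _ (Finset.mem_union_right _ ?_))))
        obtain ⟨h1, h2⟩ := he
        refine Finset.mem_image.mpr ⟨(β, j), Finset.mem_univ _, ?_⟩
        rw [show a = j from h1, show c = j from h2]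
        exact Sym2.eq_swap
      · refine Finset.mem_union_left _ (Finset.mem_union_left _ (Finset.mem_union_right _ ?_))
        obtain ⟨rfl, rfl, h2⟩ := he
        refine Finset.mem_image.mpr ⟨((β, c), s(a, a')), ?_, rfl⟩
        rw [Finset.mem_product]
        refine ⟨Finset.mem_univ _, ?_⟩
        rw [SimpleGraph.mem_edgeFinset, SimpleGraph.mem_edgeSet, SimpleGraph.top_adj]
        exact h2
      · refine Finset.mem_union_left _ (Finset.mem_union_right _ ?_)
        obtain ⟨rfl, rfl, h2⟩ := he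
        refine Finset.mem_image.mpr ⟨(β, (a, c)), ?_, rfl⟩
        rw [Finset.mem_product]
        refine ⟨Finset.mem_univ _, ?_⟩
        rw [Finset.mem_offDiag]
        exact ⟨Finset.mem_univ _, Finset.mem_univ _, fun h => h2 h.symm⟩
      · refine Finset.mem_union_left _ (Finset.mem_union_left _ (Finset.mem_union_left _
          (Finset.mem_union_right _ ?_)))
        subst he
        exact Finset.mem_image.mpr ⟨(β, a), Finset.mem_univ _, Sym2.eq_swap⟩
      · refine Finset.mem_union_left _ (Finset.mem_union_right _ ?_)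
        obtain ⟨rfl, rfl, h2⟩ := he
        refine Finset.mem_image.mpr ⟨(β', (a', c')), ?_, Sym2.eq_swap⟩
        rw [Finset.mem_product]
        refine ⟨Finset.mem_univ _, ?_⟩
        rw [Finset.mem_offDiag]
        exact ⟨Finset.mem_univ _, Finset.mem_univ _, fun h => h2 h.symm⟩
      · refine Finset.mem_union_right _ ?_
        exact Finset.mem_image.mpr ⟨(j, e), Finset.mem_univ _, Sym2.eq_swap⟩
  refine (Set.ncard_le_ncard h1 (Finset.finite_toSet _)).trans ?_
  rw [Set.ncard_coe_finset]
  refine (Finset.card_union_le _ _).trans (Nat.add_le_add ((Finset.card_union_le _ _).trans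
    (Nat.add_le_add ((Finset.card_union_le _ _).trans (Nat.add_le_add
      ((Finset.card_union_le _ _).trans (Nat.add_le_add ((Finset.card_union_le _ _).trans
        (Nat.add_le_add ?_ ?_)) ?_)) ?_)) ?_)) ?_)
  · exact Finset.card_image_le.trans (by simp)
  · exact Finset.card_image_le.trans (by simp)
  · exact Finset.card_image_le.trans (by simp)
  · refine Finset.card_image_le.trans ?_
    rw [Finset.card_product, SimpleGraph.card_edgeFinset_top_eq_card_choose_two]
    simp
  · refine Finset.card_image_le.trans ?_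
    rw [Finset.card_product, Finset.offDiag_card]
    simp only [Finset.card_univ, Fintype.card_fin]
    apply Nat.mul_le_mul_left
    rw [Nat.mul_sub, mul_one]
  · exact Finset.card_image_le.trans (by simp)

/-- the upper bound for `d = 6` -/
theorem fhat_six_le {n k : ℕ} (hk : 1 ≤ k) (hn : k ≤ n) :
    2 * (k + 1) * fhat n 6 k ≤ (k * k + k + 2) * n + (k + 1) * (2 * (k * k) +
      2 * (k * (k * (k + 1)))) := by
  classical
  have hK : 0 < k * (k + 1) := by positivity
  have hdiv := Nat.div_add_mod (n - k) (k * (k + 1))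
  have hmod := Nat.mod_lt (n - k) hK
  generalize (n - k) / (k * (k + 1)) = q at hdiv
  generalize (n - k) % (k * (k + 1)) = r at hdiv hmod
  have hcard : Fintype.card (BV6 k q r) = n := by
    simp only [Fintype.card_sum, Fintype.card_fin, Fintype.card_prod]
    have h1 : k * (k + 1) * q = q * (k * k) + q * k := by ring
    omega
  have h1 := fhat_le (d := 6) (k := k) hcard (cGraph_conn hk) (cGraph_edges k q r)
  have h2 : 2 * k.choose 2 = k * (k - 1) := by
    rw [Nat.choose_two_right]
    exact Nat.mul_div_cancel' (Nat.even_mul_pred_self k).two_dvd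
  obtain ⟨k', rfl⟩ : ∃ k', k = k' + 1 := ⟨k - 1, by omega⟩
  simp only [Nat.add_sub_cancel] at h1 h2
  generalize (k' + 1).choose 2 = c at h1 h2
  have h3 : 2 * (q * (k' + 1) * c) = q * (k' + 1) * ((k' + 1) * k') := by
    rw [← h2]; ring
  have h4 : (k' + 1) * (k' + 1 + 1) * q ≤ n := by omega
  have h5 : (k' + 1) * r ≤ (k' + 1) * ((k' + 1) * (k' + 1 + 1)) :=
    Nat.mul_le_mul_left _ hmod.le
  have h6 : ((k' + 1) * (k' + 1) + (k' + 1) + 2) * ((k' + 1) * (k' + 1 + 1) * q) ≤
      ((k' + 1) * (k' + 1) + (k' + 1) + 2) * n := Nat.mul_le_mul_left _ h4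
  generalize fhat n 6 (k' + 1) = F at h1 ⊢
  have h7 : 2 * F ≤ 2 * ((k' + 1) * (k' + 1)) + 2 * (q * (k' + 1)) + 2 * (q * (k' + 1)) +
      q * (k' + 1) * ((k' + 1) * k') + 2 * (q * ((k' + 1) * k')) + 2 * ((k' + 1) * r) := by
    rw [← h3]; omega
  have h8 : (k' + 1 + 1) * (2 * F) ≤ (k' + 1 + 1) * (2 * ((k' + 1) * (k' + 1)) +
      2 * (q * (k' + 1)) + 2 * (q * (k' + 1)) +
      q * (k' + 1) * ((k' + 1) * k') + 2 * (q * ((k' + 1) * k')) + 2 * ((k' + 1) * r)) :=
    Nat.mul_le_mul_left _ h7
  have h9 : (k' + 1 + 1) * (2 * ((k' + 1) * r)) ≤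
      (k' + 1 + 1) * (2 * ((k' + 1) * ((k' + 1) * (k' + 1 + 1)))) :=
    Nat.mul_le_mul_left _ (Nat.mul_le_mul_left _ h5)
  calc 2 * (k' + 1 + 1) * F = (k' + 1 + 1) * (2 * F) := by ring
    _ ≤ _ := h8
    _ = ((k' + 1) * (k' + 1) + (k' + 1) + 2) * ((k' + 1) * (k' + 1 + 1) * q) +
        (k' + 1 + 1) * (2 * ((k' + 1) * (k' + 1))) + (k' + 1 + 1) * (2 * ((k' + 1) * r)) := by
      ring
    _ ≤ ((k' + 1) * (k' + 1) + (k' + 1) + 2) * n +
        (k' + 1 + 1) * (2 * ((k' + 1) * (k' + 1))) +
        (k' + 1 + 1) * (2 * ((k' + 1) * ((k' + 1) * (k' + 1 + 1)))) :=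
      Nat.add_le_add (Nat.add_le_add_right h6 _) h9
    _ = _ := by ring

end edges

end Pool.Agent.FT6
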